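import Pool.Agent.H18.HIT.Targets

/-!
# HIT board, ARC: coefficients of the monic factors of the values of a polynomial
helper33
-/

set_option autoImplicit false

open Polynomial

namespace Pool.Agent.H33.HIT

open Pool.Agent.H18.HIT

/-- sum of the absolute values of the coefficients -/
noncomputable def cs (p : ℤ[X]) : ℕ := ∑ i ∈ Finset.range (p.natDegree + 1), (p.coeff i).natAbs

theorem abs_eval_le (p : ℤ[X]) (t : ℤ) :
    |p.eval t| ≤ (cs p : ℤ) * (|t| + 1) ^ p.natDegree := by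
  have h1 : (1 : ℤ) ≤ |t| + 1 := by
    have := abs_nonneg t
    omega
  rw [eval_eq_sum_range, cs]
  push_cast
  rw [Finset.sum_mul]
  refine (Finset.abs_sum_le_sum_abs _ _).trans (Finset.sum_le_sum fun i hi => ?_)
  rw [abs_mul, abs_pow]
  refine mul_le_mul_of_nonneg_left ?_ (abs_nonneg _)
  calc |t| ^ i ≤ (|t| + 1) ^ i := pow_le_pow_left₀ (abs_nonneg _) (by omega) _
    _ ≤ (|t| + 1) ^ p.natDegree :=
        pow_le_pow_right₀ h1 (by
          have := Finset.mem_range.mp hi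
          omega)

theorem hit_ARC : T_ARC := by
  intro Ψ hΨ
  obtain ⟨n, hn⟩ : ∃ n : ℕ, n = Ψ.natDegree := ⟨_, rfl⟩
  obtain ⟨B1, hB1⟩ : ∃ B1 : ℕ, B1 = ∑ i ∈ Finset.range (n + 1), cs (Ψ.coeff i) := ⟨_, rfl⟩
  obtain ⟨c1, hc1⟩ : ∃ c1 : ℕ, c1 = ∑ i ∈ Finset.range (n + 1), (Ψ.coeff i).natDegree := ⟨_, rfl⟩
  refine ⟨(B1 + 1) ^ n * n.choose (n / 2), c1 * n, fun t A hA hdiv j => ?_⟩
  have h1 : (1 : ℤ) ≤ |t| + 1 := by
    have := abs_nonneg t
    omega
  obtain ⟨P, hP⟩ : ∃ P : ℤ[X], P = Ψ.map (Polynomial.evalRingHom t) := ⟨_, rfl⟩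
  rw [← hP] at hdiv
  have hPm : P.Monic := hP ▸ hΨ.map _
  have hPn : P.natDegree = n := by
    rw [hP, hn]
    exact hΨ.natDegree_map _
  -- bound for the coefficients of P
  have hco : ∀ i, |P.coeff i| ≤ (B1 : ℤ) * (|t| + 1) ^ c1 := by
    intro i
    by_cases hi : i ≤ n
    · have hmem : i ∈ Finset.range (n + 1) := Finset.mem_range.mpr (by omega)
      rw [hP, coeff_map, coe_evalRingHom]
      refine (abs_eval_le _ t).trans ?_
      refine mul_le_mul ?_ (pow_le_pow_right₀ h1 ?_) (by positivity) (by positivity)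
      · have := Finset.single_le_sum (f := fun i => cs (Ψ.coeff i)) (fun _ _ => Nat.zero_le _) hmem
        rw [hB1]
        exact_mod_cast this
      · rw [hc1]
        exact Finset.single_le_sum (f := fun i => (Ψ.coeff i).natDegree)
          (fun _ _ => Nat.zero_le _) hmem
    · rw [coeff_eq_zero_of_natDegree_lt (by omega), abs_zero]
      positivity
  obtain ⟨φ, hφ⟩ : ∃ φ : ℤ →+* ℂ, φ = Int.castRingHom ℂ := ⟨_, rfl⟩
  have hPφ : (P.map φ).Monic := hPm.map φ
  obtain ⟨R, hR⟩ : ∃ R : ℝ, R = ((B1 : ℝ) + 1) * (((|t| : ℤ) : ℝ) + 1) ^ c1 := ⟨_, rfl⟩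
  have hR0 : 0 ≤ R := by
    rw [hR]
    have := abs_nonneg t
    positivity
  have h1R : (1 : ℝ) ≤ ((|t| : ℤ) : ℝ) + 1 := by exact_mod_cast h1
  have hpow1 : (1 : ℝ) ≤ (((|t| : ℤ) : ℝ) + 1) ^ c1 := one_le_pow₀ h1R
  have hroot : ∀ z : ℂ, (P.map φ).IsRoot z → ‖z‖ ≤ R := by
    intro z hz
    have h2 := IsRoot.norm_lt_cauchyBound hPφ.ne_zero hz
    have h3 : cauchyBound (P.map φ) ≤ Real.toNNReal R := by
      rw [cauchyBound, hPφ.leadingCoeff, nnnorm_one, div_one]
      have h4 : (Finset.range (P.map φ).natDegree).sup (fun i => ‖(P.map φ).coeff i‖₊) ≤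
          Real.toNNReal ((B1 : ℝ) * (((|t| : ℤ) : ℝ) + 1) ^ c1) := by
        refine Finset.sup_le fun i _ => ?_
        rw [← NNReal.coe_le_coe, coe_nnnorm, Real.coe_toNNReal _ (by positivity), coeff_map, hφ,
          eq_intCast, Complex.norm_intCast]
        exact_mod_cast hco i
      calc _ ≤ Real.toNNReal ((B1 : ℝ) * (((|t| : ℤ) : ℝ) + 1) ^ c1) + 1 := by
            gcongr
        _ = Real.toNNReal ((B1 : ℝ) * (((|t| : ℤ) : ℝ) + 1) ^ c1 + 1) := by
            rw [Real.toNNReal_add (by positivity) zero_le_one, Real.toNNReal_one]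
        _ ≤ Real.toNNReal R := by
            refine Real.toNNReal_le_toNNReal ?_
            rw [hR, add_mul, one_mul]
            linarith
    have h5 : ‖z‖₊ ≤ Real.toNNReal R := h2.le.trans h3
    rw [← NNReal.coe_le_coe, coe_nnnorm, Real.coe_toNNReal _ hR0] at h5
    exact h5
  have hsplit : (A.map φ).Splits := IsAlgClosed.splits _
  have hAn : A.natDegree ≤ n := by
    rw [← hPn]
    exact natDegree_le_of_dvd hdiv hPm.ne_zero
  have hmain := coeff_bdd_of_roots_le (B := R) (d := n) φ hA hsplit hAn (fun z hz => by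
    refine hroot z ?_
    have h2 : (A.map φ) ∣ (P.map φ) := Polynomial.map_dvd φ hdiv
    exact IsRoot.dvd (isRoot_of_mem_roots hz) h2) j
  rw [coeff_map, hφ, eq_intCast, Complex.norm_intCast] at hmain
  have hR1 : 1 ≤ R := by
    rw [hR]
    have h6 : (0 : ℝ) ≤ (B1 : ℝ) * (((|t| : ℤ) : ℝ) + 1) ^ c1 := by positivity
    rw [add_mul, one_mul]
    linarith
  rw [max_eq_left hR1, hR, mul_pow, ← pow_mul] at hmain
  have hfin : ((|A.coeff j| : ℤ) : ℝ) ≤
      ((((B1 + 1) ^ n * n.choose (n / 2) : ℕ) : ℤ) * (|t| + 1) ^ (c1 * n) : ℤ) := by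
    push_cast
    push_cast at hmain
    calc _ ≤ _ := hmain
      _ = _ := by ring
  exact_mod_cast hfin

end Pool.Agent.H33.HIT
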